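import Mathlib
import Pool.Agent.R190.Aug.O

set_option autoImplicit false

open scoped Topology

namespace Pool.Agent.Results.MP_2822c4_an.FiniteImages

/-- The free group on the generators `a_0, a_1, ...`. -/
abbrev F := FreeGroup ℕ

/-- Membership in the augmentation ideal `I_0(F_ω)` of `ℓ¹(F_ω)`. -/
def InI0 (f : F → ℂ) : Prop := Summable (fun g => ‖f g‖) ∧ ∑' g, f g = 0

/-- The convolution product. -/
noncomputable def convProd (b c : F → ℂ) : F → ℂ := fun x => ∑' g, b g * c (g⁻¹ * x)

/-- The projection `F_ω → F_n` which kills the generators `a_k`, `k ≥ n`. -/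
noncomputable def proj (n : ℕ) : F →* FreeGroup (Fin n) :=
  FreeGroup.lift fun k => if h : k < n then FreeGroup.of ⟨k, h⟩ else 1

open Classical in
/-- The image of `b` in `ℓ¹(F_n)`: sums over the fibres of the projection. -/
noncomputable def image (n : ℕ) (b : F → ℂ) (y : FreeGroup (Fin n)) : ℂ :=
  ∑' g, if proj n g = y then b g else 0

/-- The number of the `b_i` with nonzero image in `ℓ¹(F_n)`. -/
noncomputable def nonzeroImages (n : ℕ) {m : ℕ} (b : Fin m → F → ℂ) : ℕ :=
  Nat.card {i // image n (b i) ≠ 0}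

theorem image_eq (n : ℕ) (b : F → ℂ) :
    image n b = Pool.Agent.Y320.AI.push (Pool.Agent.R190.Aug.N.proj n) b := by
  funext y
  unfold image Pool.Agent.Y320.AI.push
  refine tsum_congr fun g => ?_
  by_cases h : proj n g = y
  · rw [if_pos h]
    exact (if_pos h).symm
  · rw [if_neg h]
    exact (if_neg h).symm

open Pool.Agent.R190.Aug.N in
/-- There is one null sequence `(f_k)` in `I_0(F_ω)` which is not in `I_0 · c_0(I_0)` as far as
factors `b_1, ..., b_m` (any `m`) are concerned whose images in some `ℓ¹(F_n)` are finitely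
supported and fewer than `n` in number (in particular: all finitely supported `b_i`), or of
which at most one is nonzero. Some `f_k` even has positive distance from
`b_1 ℓ¹ + ... + b_m ℓ¹`. -/
theorem result :
    ∃ f : ℕ → F → ℂ, (∀ k, InI0 (f k)) ∧
      Filter.Tendsto (fun k => ∑' g, ‖f k g‖) Filter.atTop (𝓝 0) ∧
      ∀ (m : ℕ) (b : Fin m → F → ℂ), (∀ i, InI0 (b i)) →
        (∃ n, nonzeroImages n b < n ∧
          ((∀ i, (Function.support (image n (b i))).Finite) ∨ nonzeroImages n b ≤ 1)) →
        ∃ k, ∃ ε : ℝ, 0 < ε ∧ ∀ c : Fin m → F → ℂ, (∀ i, Summable fun g => ‖c i g‖) →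
          ε ≤ ∑' g, ‖f k g - ∑ i, convProd (b i) (c i) g‖ := by
  refine ⟨seq, fun k => ⟨(seq_bound k).1, ?_⟩, ?_, ?_⟩
  · have h := seq_hasSum k (fun _ => 1)
    rw [sub_self, mul_zero] at h
    rw [← h.tsum_eq]
    exact tsum_congr fun g => (mul_one _).symm
  · refine squeeze_zero (fun k => tsum_nonneg fun g => norm_nonneg _)
      (fun k => (seq_bound k).2) ?_
    have h1 : Filter.Tendsto (fun k : ℕ => ((k : ℝ) + 1)⁻¹) Filter.atTop (𝓝 0) := by
      simpa [one_div] using tendsto_one_div_add_atTop_nhds_zero_nat (𝕜 := ℝ)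
    simpa using h1.const_mul 2
  · rintro m b hb ⟨n, hn, hor⟩
    unfold nonzeroImages at hn hor
    simp only [image_eq] at hn hor
    rcases hor with hfin | hone
    · exact key (n := n) hn hb hfin
    · by_cases h0 : ∀ i, Pool.Agent.Y320.AI.push (Pool.Agent.R190.Aug.N.proj n) (b i) = 0
      · refine key (n := n) hn hb fun i => ?_
        rw [h0 i, Function.support_zero]
        exact Set.finite_empty
      · push Not at h0
        obtain ⟨i0, hi0⟩ := h0
        have hpos : 0 < Nat.card {i // Pool.Agent.Y320.AI.push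
            (Pool.Agent.R190.Aug.N.proj n) (b i) ≠ 0} := by
          have : Nonempty {i // Pool.Agent.Y320.AI.push
            (Pool.Agent.R190.Aug.N.proj n) (b i) ≠ 0} := ⟨⟨i0, hi0⟩⟩
          exact Nat.card_pos
        refine key2 (n := n) (by omega) hb fun i j hij => ?_
        by_contra hcon
        push Not at hcon
        have hsub : Subsingleton {i // Pool.Agent.Y320.AI.push
            (Pool.Agent.R190.Aug.N.proj n) (b i) ≠ 0} :=
          (Finite.card_le_one_iff_subsingleton).1 hone
        have := Subsingleton.elim (⟨i, hcon.1⟩ : {i // Pool.Agent.Y320.AI.push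
            (Pool.Agent.R190.Aug.N.proj n) (b i) ≠ 0}) ⟨j, hcon.2⟩
        exact hij (congrArg Subtype.val this)

end Pool.Agent.Results.MP_2822c4_an.FiniteImages
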